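import Mathlib
import Pool.Agent.H72.Lib.S8.H438R2.BR.Defs
import Pool.Agent.H72.Lib.S8.H789R2.FR.Defs
set_option autoImplicit false

/-! # Bochner-Riesz means of block radial functions: definitions -/

namespace Pool.Agent.H438R2.RZ

open MeasureTheory Set Complex
open scoped ENNReal RealInnerProductSpace
open Pool.Agent.H789R2.FR (E sg)
open Pool.Agent.H438R2.BR (Phi)

/-- `e(x) = e^{2 pi i x}` -/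
noncomputable def e (x : ℝ) : ℂ := Complex.exp (((2 * Real.pi * x : ℝ) : ℂ) * I)

/-- the open quarter plane -/
def Q : Set (ℝ × ℝ) := Ioi 0 ×ˢ Ioi 0

/-- bounded measurable functions on the plane with bounded support -/
def Good (g : ℝ × ℝ → ℂ) : Prop :=
  Measurable g ∧ (∃ M : ℝ, ∀ z, ‖g z‖ ≤ M) ∧ ∃ B : ℝ, ∀ z, g z ≠ 0 → |z.1| ≤ B ∧ |z.2| ≤ B

/-- planar Fourier transform -/
noncomputable def ft (g : ℝ × ℝ → ℂ) (ξ : ℝ × ℝ) : ℂ :=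
  ∫ z : ℝ × ℝ, e (-(z.1 * ξ.1 + z.2 * ξ.2)) * g z

/-- planar multiplier operator -/
noncomputable def Pl (m g : ℝ × ℝ → ℂ) (z : ℝ × ℝ) : ℂ :=
  ∫ ξ : ℝ × ℝ, m ξ * ft g ξ * e (z.1 * ξ.1 + z.2 * ξ.2)

/-- smooth bumps supported in `[1/2, 2]` -/
def Bump (ψ : ℝ → ℝ) : Prop := ContDiff ℝ (⊤ : ℕ∞) ψ ∧ ∀ v, ψ v ≠ 0 → 1 / 2 ≤ v ∧ v ≤ 2

/-- the annulus multiplier of width `L^{-2}` -/
noncomputable def mR (ψ : ℝ → ℝ) (L : ℝ) (ξ : ℝ × ℝ) : ℂ :=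
  ((ψ (L ^ 2 * (1 - (ξ.1 ^ 2 + ξ.2 ^ 2))) : ℝ) : ℂ)

/-- admissible kernels: on `(0,∞)` they are superpositions `∫ b e(vt) dν(v,b)` with a finite
measure `ν` on pairs `(v,b)`, `|b| ≤ 1`, and `∫ |v|^{-3/4} dν < ∞` -/
def Adm (κ : ℝ → ℂ) : Prop :=
  ∃ ν : Measure (ℝ × ℂ), IsFiniteMeasure ν ∧ (∀ᵐ q ∂ν, ‖q.2‖ ≤ 1) ∧ (∀ᵐ q ∂ν, q.1 ≠ 0) ∧
    ∫⁻ q, ENNReal.ofReal (|q.1| ^ (-(3 / 4 : ℝ))) ∂ν < ∞ ∧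
    ∀ t : ℝ, 0 < t → κ t = ∫ q, q.2 * e (q.1 * t) ∂ν

/-- Lommel bound -/
def Lom (κ : ℝ → ℂ) : Prop :=
  ∃ C : ℝ, ∀ ρ r S : ℝ, 0 < ρ → 0 < r → 0 < S → ρ ≠ r →
    ‖∫ s in (0 : ℝ)..S, κ (ρ * s) * κ (r * s)‖ ≤ C / |ρ - r|

/-- two dimensional Hankel type transform -/
noncomputable def V (κ₁ κ₂ : ℝ → ℂ) (h : ℝ × ℝ → ℂ) (ξ : ℝ × ℝ) : ℂ :=
  ∫ z in Q, κ₁ (ξ.1 * z.1) * κ₂ (ξ.2 * z.2) * h z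

/-- Hankel multiplier operator on the quarter plane -/
noncomputable def A (κ₁ κ₂ : ℝ → ℂ) (m h : ℝ × ℝ → ℂ) (z : ℝ × ℝ) : ℂ :=
  ∫ ξ in Q, κ₁ (z.1 * ξ.1) * κ₂ (z.2 * ξ.2) * m ξ * V κ₁ κ₂ h ξ

/-! ### caps -/

/-- cutoffs to an arc above the horizontal axis -/
def Arc (α β : ℝ → ℝ) : Prop :=
  ContDiff ℝ (⊤ : ℕ∞) α ∧ ContDiff ℝ (⊤ : ℕ∞) β ∧
    ∀ s t : ℝ, α s ≠ 0 → β t ≠ 0 → s ^ 2 + t ^ 2 ≤ 1 → |s| ≤ 4 / 5 ∧ 1 / 10 ≤ t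

/-- smooth windows supported in `[-1,1]` -/
def Win (η : ℝ → ℝ) : Prop := ContDiff ℝ (⊤ : ℕ∞) η ∧ ∀ x, η x ≠ 0 → |x| ≤ 1

/-- multiplier of an arc -/
noncomputable def mA (ψ α β : ℝ → ℝ) (L : ℝ) (ξ : ℝ × ℝ) : ℂ :=
  ((α ξ.1 * β ξ.2 * ψ (L ^ 2 * (1 - (ξ.1 ^ 2 + ξ.2 ^ 2))) : ℝ) : ℂ)

/-- multiplier of a cap -/
noncomputable def mC (ψ α β η : ℝ → ℝ) (L : ℝ) (a : ℤ) (ξ : ℝ × ℝ) : ℂ :=
  ((η (L * ξ.1 - a) : ℝ) : ℂ) * mA ψ α β L ξ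

/-- slope of the tangent at the centre of the cap `a` -/
noncomputable def sl (L : ℝ) (a : ℤ) : ℝ := -((a : ℝ) / L) / Real.sqrt (1 - ((a : ℝ) / L) ^ 2)

/-- the relevant caps -/
noncomputable def SL (L : ℝ) : Finset ℤ := Finset.Icc (-⌊9 / 10 * L⌋) ⌊9 / 10 * L⌋

/-- normalised bump adapted to an `L × L^2` box -/
noncomputable def Bk (L γ : ℝ) (z : ℝ × ℝ) : ℝ :=
  1 / (L ^ 3 * ((1 + ((z.1 + γ * z.2) / L) ^ 2) * (1 + (z.2 / L ^ 2) ^ 2)))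

/-- projection to the strip `a` (window `θ`) -/
noncomputable def gA (θ : ℝ → ℝ) (L : ℝ) (a : ℤ) (g : ℝ × ℝ → ℂ) (z : ℝ × ℝ) : ℂ :=
  ∫ x : ℝ, (∫ u : ℝ, ((θ u : ℝ) : ℂ) * e (u * (x / L))) * ((1 / L : ℝ) : ℂ) *
    e ((a : ℝ) * x / L) * g (z.1 - x, z.2)

/-! ### the kernels of the blocks -/

/-- Fourier transform of the unit sphere of `ℝ^k` at distance `t` -/
noncomputable def Th (k : ℕ) (t : ℝ) : ℂ :=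
  if k = 1 then 2 * ((Real.cos (2 * Real.pi * t) : ℝ) : ℂ)
  else ((sg (k - 1)).real univ : ℂ) * Phi k (2 * Real.pi * t)

/-- Hankel kernel of `ℝ^k` -/
noncomputable def kap (k : ℕ) (t : ℝ) : ℂ := ((t ^ (((k : ℝ) - 1) / 2) : ℝ) : ℂ) * Th k t

/-- sine kernel -/
noncomputable def kaps (t : ℝ) : ℂ := 2 * ((Real.sin (2 * Real.pi * t) : ℝ) : ℂ)

/-- weight -/
noncomputable def wt (k m : ℕ) (z : ℝ × ℝ) : ℝ :=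
  z.1 ^ (((k : ℝ) - 1) / 2) * z.2 ^ (((m : ℝ) - 1) / 2)

/-- the profile operator -/
noncomputable def At (k m : ℕ) (κ₂ : ℝ → ℂ) (M g : ℝ × ℝ → ℂ) (z : ℝ × ℝ) : ℂ :=
  (((wt k m z)⁻¹ : ℝ) : ℂ) * A (kap k) κ₂ M (fun y => ((wt k m y : ℝ) : ℂ) * g y) z

/-- block lengths -/
noncomputable def bl (k m : ℕ) (x : E (k + m)) : ℝ × ℝ :=
  (Real.sqrt (∑ i : Fin k, (x (Fin.castAdd m i)) ^ 2),
    Real.sqrt (∑ i : Fin m, (x (Fin.natAdd k i)) ^ 2))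

/-- radial multiplier operator on `ℝ^n` with multiplier `M(|ξ|^2)` -/
noncomputable def TR (n : ℕ) (M : ℝ → ℝ) (f : E n → ℂ) (x : E n) : ℂ :=
  ∫ ξ : E n, ((M (‖ξ‖ ^ 2) : ℝ) : ℂ) * (∫ y : E n, e (-(⟪y, ξ⟫ : ℝ)) * f y) * e (⟪x, ξ⟫ : ℝ)

/-- the pair `(ω, κ₂)` describes a symmetry type of functions `ω(x) g(bl x)` -/
def Lk (k m : ℕ) (ω : E (k + m) → ℂ) (κ₂ : ℝ → ℂ) : Prop :=
  Measurable ω ∧ (∀ x, ‖ω x‖ ≤ 1) ∧ (∀ x, bl k m x ∈ Q → ‖ω x‖ = 1) ∧ Adm κ₂ ∧ Lom κ₂ ∧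
    ∀ g : ℝ × ℝ → ℂ, Good g → ∀ M : ℝ → ℝ, Continuous M → (∀ u, 2 < u → M u = 0) →
      ∀ x, bl k m x ∈ Q → TR (k + m) M (fun y => ω y * g (bl k m y)) x =
        ω x * At k m κ₂ (fun ξ => ((M (ξ.1 ^ 2 + ξ.2 ^ 2) : ℝ) : ℂ)) g (bl k m x)

end Pool.Agent.H438R2.RZ
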